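import Mathlib

/-!
# Lions and contamination: the lion number is not monotone under (spanning) subgraphs

We exhibit a connected graph `G` on eight vertices (the square of the path `0-1-2-3-4-5`
together with a pendant vertex `6` at `3` and a pendant vertex `7` at `4`) and a connected
spanning subgraph `H` of `G` (delete the edge `3-4`) such that two lions can clear `G` but
two lions cannot clear `H`.
-/

namespace Pool.Agent.Results.MP_fb7c1b_co.SpanningCounterexample

/-- The set of cleared vertices one step later, if the lions move from the placement `p` to the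
placement `q` and `C` is the set of cleared vertices before the step: a vertex is cleared after
the step iff a lion stands on it, or it was cleared before the step and every neighbour `u` of it
that was contaminated is such that some lion crosses the edge from `v` to `u`. -/
def step {V : Type*} (G : SimpleGraph V) {k : ℕ} (p q : Fin k → V) (C : Set V) : Set V :=
  {v | (∃ i, q i = v) ∨ (v ∈ C ∧ ∀ u, G.Adj v u → u ∉ C → ∃ i, p i = v ∧ q i = u)}

/-- The set `C(t)` of cleared vertices at time `t`, when the lions are at the placement `p t` at
each time `t`. At time `0` the cleared vertices are those holding a lion. -/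
def cleared {V : Type*} (G : SimpleGraph V) {k : ℕ} (p : ℕ → Fin k → V) : ℕ → Set V
  | 0 => Set.range (p 0)
  | t + 1 => step G (p t) (p (t + 1)) (cleared G p t)

/-- `k` lions can clear `G`: for some sequence of placements in which each lion stays put or moves
across one edge in each step, the whole vertex set is cleared at some time. -/
def LionsClear {V : Type*} (G : SimpleGraph V) (k : ℕ) : Prop :=
  ∃ p : ℕ → Fin k → V,
    (∀ t i, p (t + 1) i = p t i ∨ G.Adj (p t i) (p (t + 1) i)) ∧ ∃ t, cleared G p t = Set.univ

/-! ### Transport along isomorphisms -/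

lemma cleared_iso {V W : Type*} {G : SimpleGraph V} {G' : SimpleGraph W} (φ : G ≃g G') {k : ℕ}
    (p : ℕ → Fin k → V) (t : ℕ) (v : V) :
    φ v ∈ cleared G' (fun t i => φ (p t i)) t ↔ v ∈ cleared G p t := by
  induction t generalizing v with
  | zero => simp [cleared]
  | succ t ih =>
    simp only [cleared, step, Set.mem_ofPred_eq]
    have h1 : (∃ i, φ (p (t + 1) i) = φ v) ↔ ∃ i, p (t + 1) i = v := by simp
    rw [h1, ih]
    have h2 : (∀ u, G'.Adj (φ v) u → u ∉ cleared G' (fun t i => φ (p t i)) t →
        ∃ i, φ (p t i) = φ v ∧ φ (p (t + 1) i) = u) ↔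
        (∀ u, G.Adj v u → u ∉ cleared G p t → ∃ i, p t i = v ∧ p (t + 1) i = u) := by
      constructor
      · intro h u hu hc
        have := h (φ u) (φ.map_adj_iff.2 hu) (by rwa [ih])
        simpa using this
      · intro h u hu hc
        obtain ⟨w, rfl⟩ := φ.surjective u
        have := h w (φ.map_adj_iff.1 hu) (by rwa [← ih])
        simpa using this
    rw [h2]

lemma LionsClear.of_iso {V W : Type*} {G : SimpleGraph V} {G' : SimpleGraph W} (φ : G ≃g G')
    {k : ℕ} (h : LionsClear G k) : LionsClear G' k := by
  obtain ⟨p, hp, t, ht⟩ := h
  refine ⟨fun t i => φ (p t i), fun t i => ?_, t, ?_⟩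
  · rcases hp t i with h | h
    · left; simp [h]
    · right; exact φ.map_adj_iff.2 h
  · ext w
    obtain ⟨v, rfl⟩ := φ.surjective w
    rw [cleared_iso, ht]
    simp

/-! ### The two graphs -/

/-- Adjacency of the small graph `smallH`. -/
def adjH (a b : Fin 8) : Bool :=
  (([6, 13, 27, 102, 164, 24, 8, 16] : List ℕ).getD a 0).testBit b

/-- Adjacency of the large graph `bigG`. -/
def adjG (a b : Fin 8) : Bool :=
  (([6, 13, 27, 118, 172, 24, 8, 16] : List ℕ).getD a 0).testBit b

/-- The large graph. -/
def bigG : SimpleGraph (Fin 8) where
  Adj a b := adjG a b = true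
  symm := ⟨by decide⟩
  loopless := ⟨by decide⟩

/-- The subgraph. -/
def smallH : bigG.Subgraph where
  verts := Set.univ
  Adj a b := adjH a b = true
  adj_sub := by
    intro a b h
    show adjG a b = true
    revert a b
    decide
  edge_vert := fun _ => Set.mem_univ _
  symm := ⟨by decide⟩

/-- The maximal sets of vertices (as bit masks) that two lions standing on `a` and `b` can have
cleared in the graph `smallH`. -/
def inv (a b : Fin 8) : List ℕ :=
  ((([[[67, 145], [75, 179, 195], [71, 77, 181, 197], [75, 139, 141, 185, 217], [83, 113, 145],
      [35, 105, 177, 225], [67, 241], [145, 193]],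
    [[75, 179, 195], [67, 74, 147, 178, 194], [71, 78, 102, 151, 182, 198],
      [75, 143, 155, 186, 218, 234], [23, 51, 83, 90, 114, 147, 178, 210], [39, 106, 179, 226],
      [67, 242], [135, 147, 226]],
    [[71, 77, 181, 197], [71, 78, 102, 151, 182, 198], [71, 76, 100, 133, 134, 180, 196],
      [45, 77, 78, 143, 188, 220, 236], [55, 116, 151, 180, 212],
      [39, 101, 102, 108, 166, 181, 228], [71, 198, 244], [135, 149, 228]],
    [[75, 139, 141, 185, 217], [75, 143, 155, 186, 218, 234], [45, 77, 78, 143, 188, 220, 236],
      [73, 143, 184, 216, 232], [31, 59, 120, 155, 157, 184, 217], [47, 105, 189, 232], [75, 248],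
      [143, 157, 185, 201, 232]],
    [[83, 113, 145], [23, 51, 83, 90, 114, 147, 178, 210], [55, 116, 151, 180, 212],
      [31, 59, 120, 155, 157, 184, 217], [112, 145], [55, 120, 179, 240], [87, 123, 211, 240],
      [145, 240]],
    [[35, 105, 177, 225], [39, 106, 179, 226], [39, 101, 102, 108, 166, 181, 228],
      [47, 105, 189, 232], [55, 120, 179, 240], [39, 176, 224], [103, 107, 240], [167, 177, 224]],
    [[67, 241], [67, 242], [71, 198, 244], [75, 248], [87, 123, 211, 240], [103, 107, 240],
      [67, 224], [199, 224]],
    [[145, 193], [135, 147, 226], [135, 149, 228], [143, 157, 185, 201, 232], [145, 240],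
      [167, 177, 224], [199, 224], [128]]] : List (List (List ℕ))).getD a []).getD b [])

/-- One step on bit masks. -/
def stepB (M : ℕ) (a b a' b' v : Fin 8) : Bool :=
  v == a' || v == b' ||
    (M.testBit v && (List.finRange 8).all fun u =>
      !adjH v u || M.testBit u || (a == v && a' == u) || (b == v && b' == u))

/-- The check that the family `inv` is closed under the moves of the lions. -/
def check : Bool :=
  (List.finRange 8).all fun a => (List.finRange 8).all fun b =>
    (List.finRange 8).all fun a' => (List.finRange 8).all fun b' =>
      !(a' == a || adjH a a') || !(b' == b || adjH b b') ||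
        (inv a b).all fun M => (inv a' b').any fun M' =>
          (List.finRange 8).all fun v => !stepB M a b a' b' v || M'.testBit v

lemma check_true : check = true := by decide +kernel

/-- The graph `smallH` as a simple graph on `Fin 8`. -/
def smallH₀ : SimpleGraph (Fin 8) where
  Adj a b := adjH a b = true
  symm := ⟨by decide⟩
  loopless := ⟨by decide⟩

/-- `smallH` is isomorphic to `smallH₀`. -/
def isoH : smallH.coe ≃g smallH₀ where
  toFun x := x.1
  invFun x := ⟨x, Set.mem_univ _⟩
  left_inv _ := rfl
  right_inv _ := rfl
  map_rel_iff' := Iff.rfl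

lemma not_clear_smallH₀ : ¬ LionsClear smallH₀ 2 := by
  rintro ⟨p, hp, t, ht⟩
  have key : ∀ t, ∃ M ∈ inv (p t 0) (p t 1), ∀ v : Fin 8, v ∈ cleared smallH₀ p t →
      M.testBit v = true := by
    intro t
    induction t with
    | zero =>
      have h0 : ∀ a b : Fin 8, ∃ M ∈ inv a b, M.testBit a = true ∧ M.testBit b = true := by
        decide +kernel
      obtain ⟨M, hM, ha, hb⟩ := h0 (p 0 0) (p 0 1)
      refine ⟨M, hM, fun v hv => ?_⟩
      obtain ⟨i, rfl⟩ := hv
      fin_cases i
      · exact ha
      · exact hb
    | succ t ih =>
      obtain ⟨M, hM, hC⟩ := ih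
      have hchk := check_true
      simp only [check, List.all_eq_true, List.mem_finRange, true_imp_iff, Bool.or_eq_true,
        Bool.not_eq_true', Bool.or_eq_false_iff, List.any_eq_true] at hchk
      have hm : ∀ i, (p (t + 1) i == p t i) = true ∨ adjH (p t i) (p (t + 1) i) = true := by
        intro i
        rcases hp t i with h | h
        · left; simp [h]
        · right; exact h
      rcases hchk (p t 0) (p t 1) (p (t + 1) 0) (p (t + 1) 1) with (h | h) | h
      · rcases hm 0 with h' | h'
        · simp [h.1] at h'
        · simp [h.2] at h'
      · rcases hm 1 with h' | h'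
        · simp [h.1] at h'
        · simp [h.2] at h'
      · obtain ⟨M', hM', hv⟩ := h M hM
        refine ⟨M', hM', fun v hvC => ?_⟩
        rcases hv v with h0 | h0
        · exfalso
          simp only [stepB, Bool.or_eq_false_iff, Bool.and_eq_false_iff, beq_eq_false_iff_ne,
            List.all_eq_false, List.mem_finRange, true_and] at h0
          rcases hvC with ⟨i, hi⟩ | ⟨hvC, hu⟩
          · fin_cases i
            · exact h0.1.1 hi.symm
            · exact h0.1.2 hi.symm
          · rcases h0.2 with h1 | ⟨u, h1⟩
            · rw [hC v hvC] at h1; exact absurd h1 (by decide)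
            · simp only [Bool.or_eq_true, Bool.and_eq_true, not_or, not_and, beq_iff_eq,
                Bool.not_eq_true'] at h1
              obtain ⟨⟨⟨h2, h3⟩, h4⟩, h5⟩ := h1
              have hadj : smallH₀.Adj v u := by
                show adjH v u = true
                simpa using h2
              obtain ⟨i, hi1, hi2⟩ := hu u hadj (fun huC => h3 (hC u huC))
              fin_cases i
              · exact h4 hi1 hi2
              · exact h5 hi1 hi2
        · exact h0
  obtain ⟨M, hM, hC⟩ := key t
  have hfull : ∀ a b : Fin 8, ∀ M ∈ inv a b, ∃ v : Fin 8, M.testBit v = false := by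
    decide +kernel
  obtain ⟨v, hv⟩ := hfull _ _ M hM
  have := hC v (by rw [ht]; exact Set.mem_univ v)
  rw [hv] at this
  exact absurd this (by decide)

/-- The successive placements of the two lions in a winning strategy on `bigG`. -/
def stratList : List (List (Fin 8)) :=
  [[3, 7], [5, 4], [3, 4], [3, 2], [6, 3], [3, 4], [3, 2], [1, 2], [1, 0]]

/-- The strategy of the two lions on `bigG`; they stay at `1` and `0` from time `8` on. -/
def strat (t : ℕ) (i : Fin 2) : Fin 8 := (stratList.getD t [1, 0]).getD i 0

/-- Bit masks of sets of vertices which are cleared at time `t` by the strategy `strat`. -/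
def mask (t : ℕ) : ℕ := ([136, 176, 184, 188, 248, 248, 252, 254, 255] : List ℕ).getD t 255

/-- One step on bit masks in the graph `bigG`. -/
def stepG (M : ℕ) (a b a' b' v : Fin 8) : Bool :=
  v == a' || v == b' ||
    (M.testBit v && (List.finRange 8).all fun u =>
      !adjG v u || M.testBit u || (a == v && a' == u) || (b == v && b' == u))

lemma step_mask {M : ℕ} {C : Set (Fin 8)} (hM : ∀ v : Fin 8, M.testBit v = true → v ∈ C)
    {p q : Fin 2 → Fin 8} {v : Fin 8} (h : stepG M (p 0) (p 1) (q 0) (q 1) v = true) :
    v ∈ step bigG p q C := by
  simp only [stepG, Bool.or_eq_true, Bool.and_eq_true, beq_iff_eq, List.all_eq_true,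
    List.mem_finRange, true_imp_iff, Bool.not_eq_true'] at h
  rcases h with (h | h) | ⟨h1, h2⟩
  · exact Or.inl ⟨0, h.symm⟩
  · exact Or.inl ⟨1, h.symm⟩
  · refine Or.inr ⟨hM v h1, fun u hu huC => ?_⟩
    rcases h2 u with ((h3 | h3) | h3) | h3
    · have : adjG v u = true := hu
      rw [this] at h3
      exact absurd h3 (by decide)
    · exact absurd (hM u h3) huC
    · exact ⟨0, h3⟩
    · exact ⟨1, h3⟩

lemma clear_G : LionsClear bigG 2 := by
  refine ⟨strat, fun t i => ?_, 8, ?_⟩
  · rcases lt_or_ge t 8 with ht | ht
    · have h : ∀ t < 8, ∀ i : Fin 2, strat (t + 1) i = strat t i ∨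
          adjG (strat t i) (strat (t + 1) i) = true := by decide +kernel
      exact h t ht i
    · left
      have h1 : ∀ s : ℕ, 8 ≤ s → strat s i = ([1, 0] : List (Fin 8)).getD i 0 := by
        intro s hs
        rcases Nat.lt_or_ge s 9 with h | h
        · obtain rfl : s = 8 := by omega
          rfl
        · have h2 : stratList.getD s [1, 0] = [1, 0] :=
            List.getD_eq_default _ _ (by simpa [stratList] using h)
          unfold strat
          rw [h2]
      rw [h1 t ht, h1 (t + 1) (by omega)]
  · have key : ∀ t ≤ 8, ∀ v : Fin 8, (mask t).testBit v = true → v ∈ cleared bigG strat t := by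
      intro t
      induction t with
      | zero =>
        intro _ v hv
        have h : ∀ v : Fin 8, (mask 0).testBit v = true → v = strat 0 0 ∨ v = strat 0 1 := by
          decide +kernel
        rcases h v hv with h | h
        · exact ⟨0, h.symm⟩
        · exact ⟨1, h.symm⟩
      | succ t ih =>
        intro ht v hv
        have h : ∀ t < 8, ∀ v : Fin 8, (mask (t + 1)).testBit v = true →
            stepG (mask t) (strat t 0) (strat t 1) (strat (t + 1) 0) (strat (t + 1) 1) v
              = true := by
          decide +kernel
        exact step_mask (ih (by omega)) (h t (by omega) v hv)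
    ext v
    simp only [Set.mem_univ, iff_true]
    exact key 8 le_rfl v (by revert v; decide)

lemma connected_smallH₀ : smallH₀.Connected := by
  have h0 : ∀ v : Fin 8, smallH₀.Reachable 0 v := by
    have a01 : smallH₀.Adj 0 1 := by show adjH 0 1 = true; decide
    have a12 : smallH₀.Adj 1 2 := by show adjH 1 2 = true; decide
    have a13 : smallH₀.Adj 1 3 := by show adjH 1 3 = true; decide
    have a24 : smallH₀.Adj 2 4 := by show adjH 2 4 = true; decide
    have a35 : smallH₀.Adj 3 5 := by show adjH 3 5 = true; decide
    have a36 : smallH₀.Adj 3 6 := by show adjH 3 6 = true; decide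
    have a47 : smallH₀.Adj 4 7 := by show adjH 4 7 = true; decide
    have r1 := a01.reachable
    have r2 := r1.trans a12.reachable
    have r3 := r1.trans a13.reachable
    have r4 := r2.trans a24.reachable
    have r5 := r3.trans a35.reachable
    have r6 := r3.trans a36.reachable
    have r7 := r4.trans a47.reachable
    intro v
    fin_cases v
    · exact SimpleGraph.Reachable.refl _
    · exact r1
    · exact r2
    · exact r3
    · exact r4
    · exact r5
    · exact r6
    · exact r7
  exact { preconnected := fun u v => (h0 u).symm.trans (h0 v), nonempty := ⟨0⟩ }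

lemma connected_G : bigG.Connected := by
  refine connected_smallH₀.mono ?_
  intro a b h
  exact smallH.adj_sub h

lemma connected_H : smallH.Connected := by
  rw [SimpleGraph.Subgraph.connected_iff']
  exact (isoH.connected_iff).2 connected_smallH₀

/-- **The lion number is not monotone under subgraphs, not even spanning ones.** There are a
connected graph `G` on eight vertices and a connected spanning subgraph `H` of `G` such that two
lions can clear `G` but two lions cannot clear `H`. -/
theorem result : ∃ (G : SimpleGraph (Fin 8)) (H : G.Subgraph),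
    G.Connected ∧ H.Connected ∧ H.IsSpanning ∧ LionsClear G 2 ∧ ¬ LionsClear H.coe 2 :=
  ⟨bigG, smallH, connected_G, connected_H, fun _ => Set.mem_univ _, clear_G,
    fun h => not_clear_smallH₀ (h.of_iso isoH)⟩

end Pool.Agent.Results.MP_fb7c1b_co.SpanningCounterexample
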